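import Pool.Agent.Q62.UM.Stm1

/-! Project UM, job C1: the derivative of `bb` along a path. -/

set_option autoImplicit false

open Real Set MeasureTheory Topology Filter

namespace Pool.Agent.Q162.UM

open Pool.Agent.Q62.UM

lemma hasDerivAt_Hf {x : ℝ → ℝ} {δ s : ℝ} (h : HasDerivAt x δ s) :
    HasDerivAt (fun s => Hf (x s)) (2 * sin (x s) * δ) s := by
  have h1 := (h.cos.const_mul 2).const_sub 2
  unfold Hf
  refine h1.congr_deriv ?_
  ring

section

variable {d N : ℕ} {x : Fin d → ℝ → ℝ} {δ : Fin d → ℝ} {s : ℝ}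

lemma hasDerivAt_inv (hx : ∀ k, HasDerivAt (x k) (δ k) s) (h0 : ∀ k, 0 < Hf (x k s)) (k : Fin d) :
    HasDerivAt (fun s => (Hf (x k s))⁻¹) (-((Hf (x k s))⁻¹ * cc (fun k => x k s) δ k)) s := by
  have h1 := (hasDerivAt_Hf (hx k)).inv (h0 k).ne'
  refine h1.congr_deriv ?_
  unfold cc
  have := (h0 k).ne'
  field_simp

lemma hasDerivAt_dn (hx : ∀ k, HasDerivAt (x k) (δ k) s) (h0 : ∀ k, 0 < Hf (x k s)) :
    HasDerivAt (fun s => dn fun k => x k s) (-∑ k, (Hf (x k s))⁻¹ * cc (fun k => x k s) δ k) s := by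
  have h1 := (HasDerivAt.fun_sum (u := Finset.univ) fun k _ => hasDerivAt_inv hx h0 k).const_add 1
  unfold dn
  refine h1.congr_deriv ?_
  rw [Finset.sum_neg_distrib]

lemma hasDerivAt_lam (hx : ∀ k, HasDerivAt (x k) (δ k) s) (h0 : ∀ k, 0 < Hf (x k s)) (k : Fin d) :
    HasDerivAt (fun s => lam (fun k => x k s) k) (dlam (fun k => x k s) δ k) s := by
  have hdn : 0 < dn fun k => x k s := lt_of_lt_of_le one_pos (dn_ge h0)
  have h1 := (hasDerivAt_inv hx h0 k).div (hasDerivAt_dn hx h0) hdn.ne'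
  have hev : ∀ᶠ t in 𝓝 s, ∀ i, 0 < Hf (x i t) := by
    rw [eventually_all]
    intro i
    exact (hasDerivAt_Hf (hx i)).continuousAt.eventually (lt_mem_nhds (h0 i))
  have h2 : (fun s => lam (fun k => x k s) k) =ᶠ[𝓝 s] fun s => (Hf (x k s))⁻¹ / dn fun k => x k s := by
    filter_upwards [hev] with t ht
    exact lam_eq ht k
  refine (HasDerivAt.congr_of_eventuallyEq ?_ h2)
  refine h1.congr_deriv ?_
  unfold dlam
  simp only [lam_eq h0]
  have e1 : ∑ i, (Hf (x i s))⁻¹ / dn (fun k => x k s) * cc (fun k => x k s) δ i =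
      (∑ i, (Hf (x i s))⁻¹ * cc (fun k => x k s) δ i) / dn fun k => x k s := by
    rw [Finset.sum_div]
    refine Finset.sum_congr rfl fun i _ => ?_
    ring
  rw [e1]
  have := hdn.ne'
  field_simp
  ring

lemma hasDerivAt_Lam (hx : ∀ k, HasDerivAt (x k) (δ k) s) (h0 : ∀ k, 0 < Hf (x k s)) :
    HasDerivAt (fun s => Lam fun k => x k s) (dLam (fun k => x k s) δ) s := by
  have h1 := HasDerivAt.fun_sum (u := Finset.univ) fun k _ => (hasDerivAt_lam hx h0 k).mul (hx k).sin
  exact h1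

variable {dir : Fin N → Fin d} {e m : Fin N → ℝ → ℝ} {n l : Fin N → ℝ}

lemma hasDerivAt_aa (hx : ∀ k, HasDerivAt (x k) (δ k) s) (h0 : ∀ k, 0 < Hf (x k s))
    (he : ∀ j, HasDerivAt (e j) (e j s * n j) s) (j : Fin N) :
    HasDerivAt (fun s => aa dir (fun k => x k s) (fun j => e j s) j)
      (daa dir (fun k => x k s) δ (fun j => e j s) n j) s := by
  have hp : 0 < e j s ^ 2 + Hf (x (dir j) s) := by
    have := h0 (dir j)
    positivity
  have h1 := (he j).div (((he j).pow 2).add (hasDerivAt_Hf (hx (dir j)))) hp.ne'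
  unfold aa daa aa
  refine h1.congr_deriv ?_
  have e2 : (e j ^ 2 + fun s => Hf (x (dir j) s)) s = e j s ^ 2 + Hf (x (dir j) s) := rfl
  rw [e2]
  have := hp.ne'
  field_simp
  ring

lemma hasDerivAt_mb (hx : ∀ k, HasDerivAt (x k) (δ k) s) (h0 : ∀ k, 0 < Hf (x k s))
    (he : ∀ j, HasDerivAt (e j) (e j s * n j) s) (hm : ∀ j, HasDerivAt (m j) (l j) s)
    (he0 : ∀ j, 0 < e j s) :
    HasDerivAt (fun s => mb dir (fun k => x k s) (fun j => e j s) (fun j => m j s))
      (dmb dir (fun k => x k s) δ (fun j => e j s) (fun j => m j s) n l) s := by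
  have hA : ∀ j, 0 ≤ aa dir (fun k => x k s) (fun j => e j s) j := fun j => by
    have := h0 (dir j)
    have := he0 j
    unfold aa
    positivity
  have hS : 0 < 1 + ∑ j, aa dir (fun k => x k s) (fun j => e j s) j := by
    have : 0 ≤ ∑ j, aa dir (fun k => x k s) (fun j => e j s) j := Finset.sum_nonneg fun j _ => hA j
    linarith
  have h1 := (HasDerivAt.fun_sum (u := Finset.univ) fun j _ =>
    (hasDerivAt_aa (dir := dir) hx h0 he j).mul (hm j)).div
    ((HasDerivAt.fun_sum (u := Finset.univ) fun j _ => hasDerivAt_aa (dir := dir) hx h0 he j).const_add 1) hS.ne'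
  unfold mb dmb
  refine h1.congr_deriv ?_
  have e1 : ∑ j, (daa dir (fun k => x k s) δ (fun j => e j s) n j *
      (m j s - mb dir (fun k => x k s) (fun j => e j s) fun j => m j s) +
      aa dir (fun k => x k s) (fun j => e j s) j * l j) =
      ∑ j, (daa dir (fun k => x k s) δ (fun j => e j s) n j * m j s +
        aa dir (fun k => x k s) (fun j => e j s) j * l j) -
      (∑ j, daa dir (fun k => x k s) δ (fun j => e j s) n j) *
        mb dir (fun k => x k s) (fun j => e j s) fun j => m j s := by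
    rw [Finset.sum_mul, ← Finset.sum_sub_distrib]
    refine Finset.sum_congr rfl fun j _ => ?_
    ring
  rw [e1]
  unfold mb
  simp only [Pi.mul_apply]
  have := hS.ne'
  field_simp

end

/-- **C1** -/
theorem t_C1 : S_C1 := by
  intro d N dir x v e m δ w n l s hx hv he hm he0 h0
  have h1 := (HasDerivAt.fun_sum (u := Finset.univ) fun k _ => (hasDerivAt_lam hx h0 k).mul (hv k)).add
    ((hasDerivAt_mb (dir := dir) hx h0 he hm he0).mul (hasDerivAt_Lam hx h0))
  unfold bb dbb
  refine h1.congr_deriv ?_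
  ring

end Pool.Agent.Q162.UM
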