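import Pool.Agent.Q62.UM.Stm1

/-! Project UM, job C2: the derivative of `xi` along a path. -/

set_option autoImplicit false

open Real Set MeasureTheory Topology Filter

namespace Pool.Agent.Q162.UM

open Pool.Agent.Q62.UM

lemma hasDerivAt_Hf' {x : ℝ → ℝ} {δ s : ℝ} (h : HasDerivAt x δ s) :
    HasDerivAt (fun s => Hf (x s)) (2 * sin (x s) * δ) s := by
  have h1 := (h.cos.const_mul 2).const_sub 2
  unfold Hf
  refine h1.congr_deriv ?_
  ring

lemma hasDerivAt_Ah {σ x : ℝ → ℝ} {σ' δ s : ℝ} (hσ : HasDerivAt σ σ' s) (hx : HasDerivAt x δ s) (h0 : 0 < σ s) :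
    HasDerivAt (fun s => Ah (σ s) (x s)) (dAh (σ s) (x s) σ' δ) s := by
  have hp : 0 < 1 + σ s - cos (x s) := by linarith [cos_le_one (x s)]
  have h1 := (hx.sin.div ((hσ.const_add 1).sub hx.cos) hp.ne').arctan
  unfold Ah dAh
  refine h1.congr_deriv ?_
  have e1 : (sin ∘ x / ((fun y => 1 + σ y) - cos ∘ x)) s = sin (x s) / (1 + σ s - cos (x s)) := rfl
  have hH : 0 ≤ Hf (x s) := Hf_nonneg _
  have hD : 0 < σ s ^ 2 + (1 + σ s) * Hf (x s) := by positivity
  have e2 : σ s ^ 2 + (1 + σ s) * Hf (x s) = (1 + σ s - cos (x s)) ^ 2 + sin (x s) ^ 2 := by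
    unfold Hf
    nlinarith [sin_sq_add_cos_sq (x s)]
  have hD' : 0 < (1 + σ s - cos (x s)) ^ 2 + sin (x s) ^ 2 := by rw [← e2]; exact hD
  have e3 : σ s * (1 + σ s / 2) / (σ s ^ 2 + (1 + σ s) * Hf (x s)) - 1 / 2 =
      ((1 + σ s) * cos (x s) - 1) / ((1 + σ s - cos (x s)) ^ 2 + sin (x s) ^ 2) := by
    rw [e2, sub_eq_iff_eq_add, div_add_div _ _ hD'.ne' two_ne_zero, div_eq_div_iff hD'.ne' (by positivity)]
    have e4 : (1 + σ s - cos (x s)) ^ 2 + sin (x s) ^ 2 = σ s ^ 2 + 2 * σ s + 2 - 2 * (1 + σ s) * cos (x s) := by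
      nlinarith [sin_sq_add_cos_sq (x s)]
    rw [e4]
    ring
  rw [e3, e2]
  have e5 : ∀ A : ℝ, A = 1 + σ s - cos (x s) → 1 / (1 + (sin (x s) / A) ^ 2) *
      ((cos (x s) * δ * A - sin (x s) * (σ' - -sin (x s) * δ)) / A ^ 2) =
      ((1 + σ s) * cos (x s) - 1) / (A ^ 2 + sin (x s) ^ 2) * δ - sin (x s) / (A ^ 2 + sin (x s) ^ 2) * σ' := by
    intro A hA
    have hA0 : A ≠ 0 := by rw [hA]; exact hp.ne'
    have hA1 : A ^ 2 + sin (x s) ^ 2 ≠ 0 := by rw [hA]; exact hD'.ne'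
    have e6 : 1 / (1 + (sin (x s) / A) ^ 2) = A ^ 2 / (A ^ 2 + sin (x s) ^ 2) := by
      rw [div_pow, one_add_div (pow_ne_zero 2 hA0), one_div_div]
    rw [e6]
    have e7 : cos (x s) * A - sin (x s) ^ 2 = (1 + σ s) * cos (x s) - 1 := by
      rw [hA]
      nlinarith [sin_sq_add_cos_sq (x s)]
    rw [← e7]
    field_simp
    ring
  have e8 := e5 _ rfl
  exact e8

/-- **C2** -/
theorem t_C2 : S_C2 := by
  intro d N dir x e δ n s hx he he0 h0
  have h1 : ∀ j, HasDerivAt (fun s => Ah (√(e j s)) (x (dir j) s))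
      (dAh (√(e j s)) (x (dir j) s) (n j * √(e j s) / 2) (δ (dir j))) s := by
    intro j
    refine hasDerivAt_Ah ?_ (hx (dir j)) (sqrt_pos.2 (he0 j))
    refine ((he j).sqrt (he0 j).ne').congr_deriv ?_
    have h2 := sq_sqrt (he0 j).le
    have h3 := sqrt_pos.2 (he0 j)
    rw [div_eq_div_iff (by positivity) two_ne_zero]
    have h4 : n j * √(e j s) * (2 * √(e j s)) = 2 * n j * √(e j s) ^ 2 := by ring
    rw [h4, h2]
    ring
  have h2 : ∀ k, ∀ i ∈ Finset.univ.erase k, HasDerivAt (fun s => Ah (√(Hf (x i s - x k s))) (x k s))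
      (dAh (√(Hf (x i s - x k s))) (x k s) (sin (x i s - x k s) * (δ i - δ k) / √(Hf (x i s - x k s))) (δ k)) s := by
    intro k i hi
    have hpos := h0 i k (Finset.ne_of_mem_erase hi)
    refine hasDerivAt_Ah ?_ (hx k) (sqrt_pos.2 hpos)
    refine ((hasDerivAt_Hf' ((hx i).sub (hx k))).sqrt hpos.ne').congr_deriv ?_
    have h3 := sqrt_pos.2 hpos
    simp only [Pi.sub_apply]
    field_simp
  have h3 := (HasDerivAt.fun_sum (u := Finset.univ) fun j _ => h1 j).add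
    (HasDerivAt.fun_sum (u := Finset.univ) fun k _ => HasDerivAt.fun_sum fun i hi => h2 k i hi)
  exact h3

end Pool.Agent.Q162.UM
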