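import Pool.Agent.Q62.UM.Stm1

/-! Project UM, job TH: the derivative of the direction. -/

set_option autoImplicit false

open Real Set MeasureTheory Topology Filter

namespace Pool.Agent.Q162.UM

open Pool.Agent.Q62.UM
open Complex (I)

lemma im_alg (c s b ρ ρ' v : ℝ) (h : c ^ 2 + s ^ 2 = 1) :
    ((((c : ℂ) + s * I) * (b * I) - (ρ' + ρ * (v * I))) / (((c : ℂ) + s * I) - ρ)).im =
      (b * (1 - ρ * c) - ρ * v * (c - ρ) + ρ' * s) / (1 - 2 * ρ * c + ρ ^ 2) := by
  rw [Complex.div_im]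
  have n1 : (((c : ℂ) + s * I) * (b * I) - (ρ' + ρ * (v * I))).im = b * c - ρ * v := by
    simp
    ring
  have n2 : (((c : ℂ) + s * I) * (b * I) - (ρ' + ρ * (v * I))).re = -(b * s) - ρ' := by
    simp
    ring
  have n3 : (((c : ℂ) + s * I) - ρ).re = c - ρ := by
    simp
  have n4 : (((c : ℂ) + s * I) - ρ).im = s := by
    simp
  have n5 : Complex.normSq (((c : ℂ) + s * I) - ρ) = 1 - 2 * ρ * c + ρ ^ 2 := by
    rw [Complex.normSq_apply, n3, n4]
    linear_combination h
  rw [n1, n2, n3, n4, n5, ← sub_div]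
  congr 1
  linear_combination b * h

lemma im_fac (θ y ρ ρ' v b : ℝ) :
    ((Complex.exp (θ * I) * (b * I) - ((ρ' : ℂ) * Complex.exp (y * I) + (ρ : ℂ) * (Complex.exp (y * I) * (v * I)))) /
      (Complex.exp (θ * I) - (ρ : ℂ) * Complex.exp (y * I))).im =
    (b * (1 - ρ * cos (θ - y)) - ρ * v * (cos (θ - y) - ρ) + ρ' * sin (θ - y)) / (1 - 2 * ρ * cos (θ - y) + ρ ^ 2) := by
  have e1 : Complex.exp (θ * I) = (cos (θ - y) + sin (θ - y) * I) * Complex.exp (y * I) := by
    rw [Complex.ofReal_cos, Complex.ofReal_sin, ← Complex.exp_mul_I, ← Complex.exp_add]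
    congr 1
    push_cast
    ring
  have e2 : Complex.exp (y * I) ≠ 0 := Complex.exp_ne_zero _
  have e3 : (Complex.exp (θ * I) * (b * I) - ((ρ' : ℂ) * Complex.exp (y * I) + (ρ : ℂ) * (Complex.exp (y * I) * (v * I)))) /
      (Complex.exp (θ * I) - (ρ : ℂ) * Complex.exp (y * I)) =
      ((cos (θ - y) + sin (θ - y) * I) * (b * I) - (ρ' + ρ * (v * I))) / ((cos (θ - y) + sin (θ - y) * I) - ρ) := by
    rw [e1]
    rw [show ((cos (θ - y) : ℂ) + sin (θ - y) * I) * Complex.exp (y * I) * (b * I) -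
      ((ρ' : ℂ) * Complex.exp (y * I) + (ρ : ℂ) * (Complex.exp (y * I) * (v * I))) =
      (((cos (θ - y) : ℂ) + sin (θ - y) * I) * (b * I) - (ρ' + ρ * (v * I))) * Complex.exp (y * I) by ring,
      show ((cos (θ - y) : ℂ) + sin (θ - y) * I) * Complex.exp (y * I) - (ρ : ℂ) * Complex.exp (y * I) =
      (((cos (θ - y) : ℂ) + sin (θ - y) * I) - ρ) * Complex.exp (y * I) by ring]
    exact mul_div_mul_right _ _ e2
  rw [e3]
  exact im_alg _ _ b ρ ρ' v (cos_sq_add_sin_sq (θ - y))

lemma alg_fac {η s : ℝ} (η' x b v : ℝ) (hs : s = 1 ∨ s = -1) (h0 : 0 < η) (h1 : η < 1) :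
    (b * (1 - (1 - s * η) / (1 + s * η) * cos x) - (1 - s * η) / (1 + s * η) * v * (cos x - (1 - s * η) / (1 + s * η)) +
      (-(2 * s * η') / (1 + s * η) ^ 2) * sin x) /
      (1 - 2 * ((1 - s * η) / (1 + s * η)) * cos x + ((1 - s * η) / (1 + s * η)) ^ 2) =
    (b + v) / 2 + s / 2 * (η / (η ^ 2 + (1 - η ^ 2) * Hf x / 4)) * (b - v - η' / η * sin x) := by
  have hc := cos_le_one x
  have hH : 0 ≤ Hf x := Hf_nonneg x
  have hP : 0 < η ^ 2 + (1 - η ^ 2) * Hf x / 4 := by
    have : 0 ≤ 1 - η ^ 2 := by nlinarith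
    positivity
  have hs2 : s ^ 2 = 1 := by
    rcases hs with h | h <;> rw [h] <;> norm_num
  have hu : 0 < 1 + s * η := by
    rcases hs with h | h <;> rw [h] <;> linarith
  have hD : 1 - 2 * ((1 - s * η) / (1 + s * η)) * cos x + ((1 - s * η) / (1 + s * η)) ^ 2 =
      4 * (η ^ 2 + (1 - η ^ 2) * Hf x / 4) / (1 + s * η) ^ 2 := by
    have hu' := hu.ne'
    field_simp
    unfold Hf
    have h4 : s ^ 2 * η ^ 2 = η ^ 2 := by rw [hs2, one_mul]
    linear_combination (2 * cos x + 2) * h4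
  have hN : b * (1 - (1 - s * η) / (1 + s * η) * cos x) - (1 - s * η) / (1 + s * η) * v * (cos x - (1 - s * η) / (1 + s * η)) +
      (-(2 * s * η') / (1 + s * η) ^ 2) * sin x = 4 * ((η ^ 2 + (1 - η ^ 2) * Hf x / 4) * ((b + v) / 2) +
        s / 2 * (η * (b - v) - η' * sin x)) / (1 + s * η) ^ 2 := by
    have hu' := hu.ne'
    field_simp
    unfold Hf
    have h4 : s ^ 2 * η ^ 2 = η ^ 2 := by rw [hs2, one_mul]
    linear_combination (2 * (b + v) * (1 + cos x)) * h4
  rw [hD, hN, div_div_div_cancel_right₀ (pow_ne_zero 2 hu.ne')]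
  have hP' := hP.ne'
  have h0' := h0.ne'
  rw [mul_div_mul_left _ _ (by norm_num : (4 : ℝ) ≠ 0), add_div, mul_div_cancel_left₀ _ hP']
  congr 1
  field_simp

/-- **TH** -/
theorem t_TH : S_TH := by
  intro g J hJ hg z hz b
  have hJn : J ∈ 𝓝 z.re := hJ.mem_nhds hz
  have hcd : HasDerivAt g.c (deriv g.c z.re) z.re :=
    ((hg.c.contDiffAt hJn).differentiableAt (by norm_num)).hasDerivAt
  have hyd : ∀ k, HasDerivAt (g.y k) (g.v z.re k) z.re := fun k =>
    (((hg.y k).contDiffAt hJn).differentiableAt (by norm_num)).hasDerivAt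
  have hηd : ∀ j, HasDerivAt (g.η j) (deriv (g.η j) z.re) z.re := fun j =>
    (((hg.η j).contDiffAt hJn).differentiableAt (by norm_num)).hasDerivAt
  have hu : ∀ j, 0 < 1 + g.s j * g.η j z.re := by
    intro j
    have h1 := hg.η0 j z.re hz
    have h2 := hg.η1 j z.re hz
    rcases hg.s j with h | h <;> rw [h] <;> linarith
  have hρ : ∀ j, HasDerivAt (fun u => (1 - g.s j * g.η j u) / (1 + g.s j * g.η j u))
      (-(2 * g.s j * deriv (g.η j) z.re) / (1 + g.s j * g.η j z.re) ^ 2) z.re := by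
    intro j
    refine ((((hηd j).const_mul (g.s j)).const_sub 1).div (((hηd j).const_mul (g.s j)).const_add 1)
      (hu j).ne').congr_deriv ?_
    congr 1
    ring
  have hω : ∀ j, HasDerivAt (g.root j)
      (((-(2 * g.s j * deriv (g.η j) z.re) / (1 + g.s j * g.η j z.re) ^ 2 : ℝ) : ℂ) *
          Complex.exp (g.y (g.dir j) z.re * I) +
        (((1 - g.s j * g.η j z.re) / (1 + g.s j * g.η j z.re) : ℝ) : ℂ) *
          (Complex.exp (g.y (g.dir j) z.re * I) * (g.v z.re (g.dir j) * I))) z.re := by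
    intro j
    have h1 := (hρ j).ofReal_comp
    have h2 := (((hyd (g.dir j)).ofReal_comp).mul_const I).cexp
    exact h1.mul h2
  -- differentiability
  have hRe : DifferentiableAt ℝ (fun w : ℂ => w.re) z := Complex.reCLM.differentiableAt
  have hIm : DifferentiableAt ℝ (fun w : ℂ => (w.im : ℂ)) z :=
    Complex.ofRealCLM.differentiableAt.comp z Complex.imCLM.differentiableAt
  have hFd : DifferentiableAt ℝ g.F z := by
    have d1 : DifferentiableAt ℝ (fun w : ℂ => g.c w.re) z :=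
      DifferentiableAt.comp (g := g.c) z hcd.differentiableAt hRe
    have d2 : DifferentiableAt ℝ (fun w : ℂ => Complex.exp (g.q * (w.im * I))) z :=
      ((hIm.mul_const I).const_mul _).cexp
    have d3 : ∀ j ∈ (Finset.univ : Finset (Fin g.N)), DifferentiableAt ℝ
        (fun w : ℂ => Complex.exp (w.im * I) - g.root j w.re) z := by
      intro j _
      exact ((hIm.mul_const I).cexp).sub
        (DifferentiableAt.comp (g := g.root j) z (hω j).differentiableAt hRe)
    exact (d1.mul d2).mul (HasFDerivAt.finsetProd fun j hj => (d3 j hj).hasFDerivAt).differentiableAt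
  -- the path
  have hφ : HasDerivAt (fun s : ℝ => z + (s : ℂ) * (1 + b * I)) (1 + b * I) 0 := by
    have h1 : HasDerivAt (fun s : ℝ => (s : ℂ)) 1 0 := Complex.ofRealCLM.hasDerivAt
    have h2 := (h1.mul_const (1 + b * I)).const_add z
    rwa [one_mul] at h2
  have hφ0 : z + ((0 : ℝ) : ℂ) * (1 + b * I) = z := by simp
  have hφre : ∀ s : ℝ, (z + (s : ℂ) * (1 + b * I)).re = z.re + s := by intro s; simp
  have hφim : ∀ s : ℝ, (z + (s : ℂ) * (1 + b * I)).im = z.im + s * b := by intro s; simp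
  have hD : HasDerivAt (fun s : ℝ => g.F (z + (s : ℂ) * (1 + b * I))) (fderiv ℝ g.F z (1 + b * I)) 0 := by
    have h1 : HasFDerivAt g.F (fderiv ℝ g.F z) (z + ((0 : ℝ) : ℂ) * (1 + b * I)) := by
      rw [hφ0]
      exact hFd.hasFDerivAt
    exact h1.comp_hasDerivAt 0 hφ
  have hre : HasDerivAt (fun s : ℝ => z.re + s) 1 0 := (hasDerivAt_id 0).const_add z.re
  have him : HasDerivAt (fun s : ℝ => ((z.im + s * b : ℝ) : ℂ)) b 0 := by
    have h1 : HasDerivAt (fun s : ℝ => z.im + s * b) b 0 := by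
      have := ((hasDerivAt_id (0 : ℝ)).mul_const b).const_add z.im
      rwa [one_mul] at this
    exact h1.ofReal_comp
  have hA : HasDerivAt (fun s : ℝ => g.c (z.re + s)) (deriv g.c z.re) 0 := by
    have h1 : HasDerivAt g.c (deriv g.c z.re) (z.re + 0) := by rwa [add_zero]
    have h2 := HasDerivAt.scomp (0 : ℝ) h1 hre
    rwa [one_smul] at h2
  have hB : HasDerivAt (fun s : ℝ => Complex.exp (g.q * (((z.im + s * b : ℝ) : ℂ) * I)))
      (Complex.exp (g.q * (z.im * I)) * (g.q * (b * I))) 0 := by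
    have h1 := ((him.mul_const I).const_mul (g.q : ℂ)).cexp
    simpa using h1
  have hC : ∀ j, HasDerivAt (fun s : ℝ => Complex.exp (((z.im + s * b : ℝ) : ℂ) * I) - g.root j (z.re + s))
      (Complex.exp (z.im * I) * (b * I) -
        (((-(2 * g.s j * deriv (g.η j) z.re) / (1 + g.s j * g.η j z.re) ^ 2 : ℝ) : ℂ) *
            Complex.exp (g.y (g.dir j) z.re * I) +
          (((1 - g.s j * g.η j z.re) / (1 + g.s j * g.η j z.re) : ℝ) : ℂ) *
            (Complex.exp (g.y (g.dir j) z.re * I) * (g.v z.re (g.dir j) * I)))) 0 := by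
    intro j
    have h1 := (him.mul_const I).cexp
    have h2 := hω j
    rw [← add_zero z.re] at h2
    have h3 := HasDerivAt.scomp (0 : ℝ) h2 hre
    rw [one_smul, add_zero] at h3
    have h4 := h1.sub h3
    have e0 : ((z.im + 0 * b : ℝ) : ℂ) = (z.im : ℂ) := by simp
    rw [e0] at h4
    exact h4
  -- values
  have hF0 : g.F z = (fun s : ℝ => g.F (z + (s : ℂ) * (1 + b * I))) 0 := by
    simp only [hφ0]
  have hfun : (fun s : ℝ => g.F (z + (s : ℂ) * (1 + b * I))) = fun s : ℝ =>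
      (g.c (z.re + s) * Complex.exp (g.q * (((z.im + s * b : ℝ) : ℂ) * I))) *
        ∏ j, (Complex.exp (((z.im + s * b : ℝ) : ℂ) * I) - g.root j (z.re + s)) := by
    funext s
    unfold Cfg.F
    rw [hφre, hφim]
  have hCne : ∀ j, Complex.exp (((z.im + 0 * b : ℝ) : ℂ) * I) - g.root j (z.re + 0) ≠ 0 := by
    intro j h0
    rw [sub_eq_zero, add_zero] at h0
    have h1 := congrArg norm h0
    have h2 := hg.η0 j z.re hz
    have h3 := hg.η1 j z.re hz
    have h4 : 0 < 1 - g.s j * g.η j z.re := by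
      rcases hg.s j with h | h <;> rw [h] <;> linarith
    unfold Cfg.root at h1
    rw [Complex.norm_exp_ofReal_mul_I, norm_mul, Complex.norm_exp_ofReal_mul_I, mul_one, Complex.norm_real,
      Real.norm_eq_abs, abs_of_pos (div_pos h4 (hu j)), eq_div_iff (hu j).ne'] at h1
    rcases hg.s j with h | h <;> rw [h] at h1 <;> linarith
  have hlog : (fderiv ℝ g.F z (1 + b * I) / g.F z) =
      deriv g.c z.re / g.c z.re + g.q * (b * I) + ∑ j, (Complex.exp (z.im * I) * (b * I) -
        (((-(2 * g.s j * deriv (g.η j) z.re) / (1 + g.s j * g.η j z.re) ^ 2 : ℝ) : ℂ) *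
            Complex.exp (g.y (g.dir j) z.re * I) +
          (((1 - g.s j * g.η j z.re) / (1 + g.s j * g.η j z.re) : ℝ) : ℂ) *
            (Complex.exp (g.y (g.dir j) z.re * I) * (g.v z.re (g.dir j) * I)))) /
        (Complex.exp (z.im * I) - g.root j z.re) := by
    rw [← hD.deriv, hF0, ← logDeriv_apply, hfun]
    have hA0 : g.c (z.re + 0) ≠ 0 := by rw [add_zero]; exact hg.c0 _ hz
    rw [logDeriv_mul (f := fun s : ℝ => g.c (z.re + s) * Complex.exp (g.q * (((z.im + s * b : ℝ) : ℂ) * I)))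
      (g := fun s : ℝ => ∏ j, (Complex.exp (((z.im + s * b : ℝ) : ℂ) * I) - g.root j (z.re + s))) 0
      (mul_ne_zero hA0 (Complex.exp_ne_zero _)) (Finset.prod_ne_zero_iff.2 fun j _ => hCne j)
      (hA.mul hB).differentiableAt (HasDerivAt.fun_finsetProd fun j _ => hC j).differentiableAt]
    rw [logDeriv_mul (f := fun s : ℝ => g.c (z.re + s))
      (g := fun s : ℝ => Complex.exp (g.q * (((z.im + s * b : ℝ) : ℂ) * I))) 0 hA0 (Complex.exp_ne_zero _)
      hA.differentiableAt hB.differentiableAt]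
    rw [logDeriv_prod (fun j _ => hCne j) (fun j _ => (hC j).differentiableAt)]
    congr 1
    · rw [logDeriv_apply, logDeriv_apply, hA.deriv, hB.deriv, add_zero]
      congr 1
      have e0 : ((z.im + 0 * b : ℝ) : ℂ) = (z.im : ℂ) := by simp
      rw [e0, mul_div_cancel_left₀ _ (Complex.exp_ne_zero _)]
    · refine Finset.sum_congr rfl fun j _ => ?_
      rw [logDeriv_apply, (hC j).deriv]
      have e0 : ((z.im + 0 * b : ℝ) : ℂ) = (z.im : ℂ) := by simp
      rw [e0, add_zero]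
  rw [hlog, Complex.add_im, Complex.add_im, Complex.im_sum]
  congr 1
  · congr 1
    simp
  · refine Finset.sum_congr rfl fun j _ => ?_
    have h1 := im_fac z.im (g.y (g.dir j) z.re) ((1 - g.s j * g.η j z.re) / (1 + g.s j * g.η j z.re))
      (-(2 * g.s j * deriv (g.η j) z.re) / (1 + g.s j * g.η j z.re) ^ 2) (g.v z.re (g.dir j)) b
    have h2 := alg_fac (deriv (g.η j) z.re) (z.im - g.y (g.dir j) z.re) b (g.v z.re (g.dir j)) (hg.s j)
      (hg.η0 j z.re hz) (hg.η1 j z.re hz)
    exact h1.trans h2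

end Pool.Agent.Q162.UM
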